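import Mathlib
import Pool.Agent.Lib.MP_087bf0_co.Defs
import Pool.Agent.Lib.MP_087bf0_co.Final

open scoped ENNReal Real
open MP087bf0

/-- For every `d ≥ 2`: `Pr(‖σ_V‖₂ ≤ √d) ≥ e⁻¹ (d / (2πe²))^{d/2} n^{-d/2}` for all `n ≥ d` and all
unit vectors `v₁, …, vₙ ∈ ℝ^d`, and
`e⁻¹ (d / (2πe²))^{d/2} ≤ f_{d,√d} ≤ (8d/π)^{d/2}`. -/
theorem MP087bf0.smallBallOrder (d : ℕ) (hd : 2 ≤ d) :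
    (∀ n : ℕ, d ≤ n → ∀ V : Fin n → EuclideanSpace ℝ (Fin d), (∀ i, ‖V i‖ = 1) →
      Real.exp (-1) * ((d:ℝ) / (2 * π * Real.exp 2)) ^ ((d:ℝ)/2) / (n:ℝ) ^ ((d:ℝ)/2)
        ≤ prob V (√(d:ℝ))) ∧
    ENNReal.ofReal (Real.exp (-1) * ((d:ℝ) / (2 * π * Real.exp 2)) ^ ((d:ℝ)/2)) ≤ f d (√(d:ℝ)) ∧
    f d (√(d:ℝ)) ≤ ENNReal.ofReal ((8 * (d:ℝ) / π) ^ ((d:ℝ)/2)) :=
  main d hd
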